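import Pool.Agent.Results.MP_170294_an.PopovFalse

/-!
Hausdorff approximation of `|x|` and of steep ramps: the general lemmas.
-/

set_option autoImplicit false

open Polynomial

namespace Pool.Agent.Y878.PO

open Pool.Agent.Results.MP_170294_an.PopovFalse

/-- one half of the interval -/
theorem half (g : ℝ → ℝ) (hg : Continuous g) (δ : ℝ) (h0 : 0 < δ)
    (hA : ∀ x, 0 ≤ x → x ≤ 1 - δ → g x ≤ x + 2 * δ)
    (hA2 : ∀ x, 1 - δ ≤ x → x ≤ 1 → g x ≤ 1 + δ)
    (hB : ∀ x, δ ≤ x → x ≤ 1 → x - 2 * δ ≤ g x)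
    (hB2 : ∀ x, 0 ≤ x → x ≤ δ → -δ ≤ g x)
    (hC : g 0 ≤ δ) (hD : 1 - δ ≤ g 1) (hδ : δ ≤ 1 / 4) (x : ℝ) (hx0 : 0 ≤ x) (hx1 : x ≤ 1) :
    (∃ ξ : ℝ, 0 ≤ ξ ∧ ξ ≤ 1 ∧ |x - ξ| ≤ δ ∧ |x - g ξ| ≤ δ) ∧
    (∃ ξ : ℝ, 0 ≤ ξ ∧ ξ ≤ 1 ∧ |x - ξ| ≤ δ ∧ |ξ - g x| ≤ δ) := by
  have A : ∀ y, 0 ≤ y → y ≤ 1 → g y ≤ y + 2 * δ := by
    intro y hy0 hy1
    rcases le_total y (1 - δ) with h | h
    · exact hA y hy0 h
    · have := hA2 y h hy1
      linarith
  have A2 : ∀ y, 0 ≤ y → y ≤ 1 → g y ≤ 1 + δ := by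
    intro y hy0 hy1
    rcases le_total y (1 - δ) with h | h
    · have := hA y hy0 h
      linarith
    · exact hA2 y h hy1
  have B : ∀ y, 0 ≤ y → y ≤ 1 → y - 2 * δ ≤ g y := by
    intro y hy0 hy1
    rcases le_total y δ with h | h
    · have := hB2 y hy0 h
      linarith
    · exact hB y h hy1
  have B2 : ∀ y, 0 ≤ y → y ≤ 1 → -δ ≤ g y := by
    intro y hy0 hy1
    rcases le_total y δ with h | h
    · exact hB2 y hy0 h
    · have := hB y h hy1
      linarith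
  -- the two ends of the window
  obtain ⟨a, ha0, hax, hxa, haA, haB⟩ : ∃ a : ℝ, 0 ≤ a ∧ a ≤ x ∧ x - δ ≤ a ∧ g a ≤ x + δ ∧
      a - δ ≤ g x := by
    rcases le_total δ x with h | h
    · refine ⟨x - δ, by linarith, by linarith, le_refl _, ?_, ?_⟩
      · have := A (x - δ) (by linarith) (by linarith)
        linarith
      · have := B x hx0 hx1
        linarith
    · refine ⟨0, le_refl _, hx0, by linarith, by linarith, ?_⟩
      have := B2 x hx0 hx1
      linarith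
  obtain ⟨b, hb1, hxb, hbx, hbB, hbA⟩ : ∃ b : ℝ, b ≤ 1 ∧ x ≤ b ∧ b ≤ x + δ ∧ x - δ ≤ g b ∧
      g x ≤ b + δ := by
    rcases le_total (x + δ) 1 with h | h
    · refine ⟨x + δ, h, by linarith, le_refl _, ?_, ?_⟩
      · have := B (x + δ) (by linarith) h
        linarith
      · have := A x hx0 hx1
        linarith
    · refine ⟨1, le_refl _, hx1, by linarith, by linarith, ?_⟩
      have := A2 x hx0 hx1
      linarith
  constructor
  · by_cases hc : x - δ ≤ g a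
    · refine ⟨a, ha0, by linarith, ?_, ?_⟩
      · rw [abs_le]; constructor <;> linarith
      · rw [abs_le]; constructor <;> linarith
    · push Not at hc
      obtain ⟨ξ, hξ, he⟩ := intermediate_value_Icc (by linarith : a ≤ b) hg.continuousOn
        (show x - δ ∈ Set.Icc (g a) (g b) from ⟨hc.le, hbB⟩)
      refine ⟨ξ, by linarith [hξ.1], by linarith [hξ.2], ?_, ?_⟩
      · rw [abs_le]; constructor <;> linarith [hξ.1, hξ.2]
      · rw [he, abs_le]; constructor <;> linarith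
  · rcases le_total (g x) a with h | h
    · refine ⟨a, ha0, by linarith, ?_, ?_⟩
      · rw [abs_le]; constructor <;> linarith
      · rw [abs_le]; constructor <;> linarith
    · rcases le_total (g x) b with h' | h'
      · refine ⟨g x, by linarith, by linarith, ?_, ?_⟩
        · rw [abs_le]; constructor <;> linarith
        · rw [sub_self, abs_zero]; exact h0.le
      · refine ⟨b, by linarith, hb1, ?_, ?_⟩
        · rw [abs_le]; constructor <;> linarith
        · rw [abs_le]; constructor <;> linarith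

/-- Upper bound for the Hausdorff distance of `|x|` and an even function. -/
theorem hdist_abs (g : ℝ → ℝ) (hg : Continuous g) (he : ∀ x, g (-x) = g x) (δ : ℝ) (h0 : 0 < δ)
    (hA : ∀ x, 0 ≤ x → x ≤ 1 - δ → g x ≤ x + 2 * δ)
    (hA2 : ∀ x, 1 - δ ≤ x → x ≤ 1 → g x ≤ 1 + δ)
    (hB : ∀ x, δ ≤ x → x ≤ 1 → x - 2 * δ ≤ g x)
    (hB2 : ∀ x, 0 ≤ x → x ≤ δ → -δ ≤ g x)
    (hC : g 0 ≤ δ) (hD : 1 - δ ≤ g 1) (hδ : δ ≤ 1 / 4) :
    hdist (fun x => |x|) g ≤ δ := by
  apply ciSup_le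
  rintro ⟨x, hx⟩
  rcases le_total 0 x with h | h
  · obtain ⟨⟨ξ, a1, a2, a3, a4⟩, ⟨η, b1, b2, b3, b4⟩⟩ :=
      half g hg δ h0 hA hA2 hB hB2 hC hD hδ x h hx.2
    apply hdiff_le
    · exact ⟨ξ, ⟨by linarith, a2⟩, a3, by simpa [abs_of_nonneg h] using a4⟩
    · exact ⟨η, ⟨by linarith, b2⟩, b3, by simpa [abs_of_nonneg b1] using b4⟩
  · obtain ⟨⟨ξ, a1, a2, a3, a4⟩, ⟨η, b1, b2, b3, b4⟩⟩ :=
      half g hg δ h0 hA hA2 hB hB2 hC hD hδ (-x) (by linarith) (by linarith [hx.1])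
    apply hdiff_le
    · refine ⟨-ξ, ⟨by linarith, by linarith⟩, ?_, ?_⟩
      · have e : x - -ξ = -(-x - ξ) := by ring
        rw [e, abs_neg]
        exact a3
      · show |(|x|) - g (-ξ)| ≤ δ
        rw [abs_of_nonpos h, he]
        exact a4
    · refine ⟨-η, ⟨by linarith, by linarith⟩, ?_, ?_⟩
      · have e : x - -η = -(-x - η) := by ring
        rw [e, abs_neg]
        exact b3
      · show |(|-η|) - g x| ≤ δ
        rw [abs_neg, abs_of_nonneg b1, ← he x]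
        exact b4

/-- Upper bound for `E n |x|` from an even polynomial. -/
theorem E_abs (p : ℝ[X]) (n : ℕ) (hn : p.natDegree ≤ n) (δ : ℝ)
    (h : hdist (fun x => |x|) (fun x => p.eval x) ≤ δ) : E n (fun x => |x|) ≤ δ := by
  unfold E
  refine ciInf_le_of_le ⟨0, ?_⟩ (⟨p, hn⟩ : {p : ℝ[X] // p.natDegree ≤ n}) h
  rintro _ ⟨p, rfl⟩
  exact hdist_nonneg _ _

/-! ### The ramp -/

/-- The ramp which vanishes up to `1 - 1 / M` and then climbs to `1` at `x = 1`. -/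
noncomputable def rmp (M : ℝ) (x : ℝ) : ℝ := max 0 (M * x - (M - 1))

theorem rmp_mem (M : ℝ) (hM : 0 ≤ M) : rmp M ∈ K := by
  refine ⟨?_, ?_, ?_⟩
  · unfold rmp
    exact (by fun_prop : Continuous fun x : ℝ => max 0 (M * x - (M - 1))).continuousOn
  · unfold rmp
    apply ConvexOn.sup
    · exact convexOn_const 0 (convex_Icc _ _)
    · refine ⟨convex_Icc _ _, ?_⟩
      intro x _ y _ a b _ _ hab
      simp only [smul_eq_mul]
      have : M - 1 = (a + b) * (M - 1) := by rw [hab, one_mul]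
      nlinarith
  · intro x hx
    unfold rmp
    constructor
    · exact le_max_left _ _
    · apply max_le
      · norm_num
      · nlinarith [hx.2]

theorem rmp_zero (M x r : ℝ) (hM : 0 < M) (hr : M * r = 1) (h : x ≤ 1 - r) : rmp M x = 0 := by
  unfold rmp
  apply max_eq_left
  nlinarith

theorem rmp_one (M : ℝ) : rmp M 1 = 1 := by
  unfold rmp
  have : M * 1 - (M - 1) = 1 := by ring
  rw [this]; norm_num

/-- The Chebyshev polynomials at `(u + 1 / u) / 2`. -/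
theorem T_at (u : ℝ) (hu : 0 < u) (n : ℕ) :
    (Chebyshev.T ℝ (n : ℤ)).eval ((u + u⁻¹) / 2) = (u ^ n + (u⁻¹) ^ n) / 2 := by
  induction n using Nat.strong_induction_on with
  | _ n ih =>
    match n, ih with
    | 0, _ => simp
    | 1, _ => simp
    | (k + 2), ih =>
      have h1 := ih (k + 1) (by omega)
      have h0 := ih k (by omega)
      have e : (Chebyshev.T ℝ ((k + 2 : ℕ) : ℤ)) =
          2 * X * Chebyshev.T ℝ ((k + 1 : ℕ) : ℤ) - Chebyshev.T ℝ (k : ℤ) := by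
        have := Chebyshev.T_add_two ℝ (k : ℤ)
        push_cast at this ⊢
        exact this
      rw [e, eval_sub, eval_mul, h1, h0]
      simp only [eval_mul, eval_ofNat, eval_X]
      have hi : u * u⁻¹ = 1 := mul_inv_cancel₀ hu.ne'
      have e1 : u ^ (k + 2) = u * u * u ^ k := by ring
      have e2 : u⁻¹ ^ (k + 2) = u⁻¹ * u⁻¹ * u⁻¹ ^ k := by ring
      have e3 : u ^ (k + 1) = u * u ^ k := by ring
      have e4 : u⁻¹ ^ (k + 1) = u⁻¹ * u⁻¹ ^ k := by ring
      rw [e1, e2, e3, e4]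
      linear_combination (u ^ k / 2 + u⁻¹ ^ k / 2) * hi

/-- Lower bound for the Hausdorff distance of a steep ramp and a polynomial. -/
theorem rmp_lower (M r u δ : ℝ) (N : ℕ) (hM : 0 < M) (hr : M * r = 1) (hδ : 0 < δ)
    (hrd : r + δ < 1) (hd2 : δ < 1 / 2) (hu : 1 < u)
    (hy : (r + δ) * (2 * u) ≤ (u - 1) ^ 2 * (1 - (r + δ) / 2))
    (hT : δ * ((u ^ N + (u⁻¹) ^ N) / 2) ≤ 1 - δ)
    (p : ℝ[X]) (hp : p.natDegree ≤ N) : δ ≤ hdist (rmp M) (fun x => p.eval x) := by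
  by_contra hcon
  push Not at hcon
  have hr0 : 0 < r := by
    by_contra h
    push Not at h
    nlinarith
  have hpc : ContinuousOn (fun x => p.eval x) Delta := p.continuous.continuousOn
  have hrc : ContinuousOn (rmp M) Delta := (rmp_mem M hM.le).1
  have hex := exists_of_hdist_lt (rmp M) (fun x => p.eval x) hrc hpc _ hcon
  set e : ℝ := 1 - r - δ with hedef
  have hsmall : ∀ x ∈ Set.Icc (-1 : ℝ) e, |p.eval x| ≤ δ := by
    intro x hx
    obtain ⟨-, ξ, hξ, h1, h2⟩ := hex x ⟨hx.1, by linarith [hx.2]⟩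
    have h3 := (abs_lt.mp h1).1
    rw [rmp_zero M ξ r hM hr (by linarith [hx.2])] at h2
    rw [zero_sub, abs_neg] at h2
    exact h2.le
  obtain ⟨⟨ξ, hξ, h1, h2⟩, -⟩ := hex 1 (by norm_num)
  rw [rmp_one] at h2
  have h3 := (abs_lt.mp h1).2
  have h4 := (abs_lt.mp h2).2
  -- the point lies to the right of `e`
  have hξe : e < ξ := by
    by_contra h
    push Not at h
    have := (abs_le.mp (hsmall ξ ⟨by linarith [hξ.1], h⟩)).2
    linarith
  -- rescale
  set w : ℝ := (u - 1) ^ 2 / (2 * u) with hw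
  have hu0 : 0 < u := by linarith
  have hw0 : 0 < w := by
    rw [hw]
    have : 0 < u - 1 := by linarith
    positivity
  have hyw : (u + u⁻¹) / 2 = 1 + w := by
    rw [hw]
    field_simp
    ring
  set k : ℝ := (ξ - e) / w with hk
  have hk0 : 0 < k := div_pos (by linarith) hw0
  have hkw : k * w = ξ - e := by rw [hk]; field_simp
  have hyy : r + δ ≤ w * (1 - (r + δ) / 2) := by
    rw [hw, div_mul_eq_mul_div, le_div_iff₀ (by positivity)]
    exact hy
  have hk1 : 2 * k ≤ 1 + e := by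
    have h5 : ξ - e ≤ r + δ := by linarith [hξ.2]
    have h6 : k * w ≤ w * (1 - (r + δ) / 2) := by rw [hkw]; linarith
    have h7 : k ≤ 1 - (r + δ) / 2 := by
      by_contra h
      push Not at h
      nlinarith
    linarith
  set q : ℝ[X] := C δ⁻¹ * p.comp (C k * X + C (e - k)) with hq
  have hqe : ∀ y : ℝ, q.eval y = δ⁻¹ * p.eval (k * y + (e - k)) := by
    intro y
    rw [hq]
    simp only [eval_mul, eval_C, eval_comp, eval_add, eval_X]
  have hqdeg : q.degree ≤ ((N : ℕ) : WithBot ℕ) := by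
    apply natDegree_le_iff_degree_le.mp
    rw [hq]
    refine (natDegree_C_mul_le _ _).trans ?_
    refine (natDegree_comp_le).trans ?_
    have : (C k * X + C (e - k) : ℝ[X]).natDegree ≤ 1 := natDegree_linear_le
    nlinarith
  have hqb : ∀ y ∈ Set.Icc (-1 : ℝ) 1, |q.eval y| ≤ 1 := by
    intro y hy
    rw [hqe, abs_mul, abs_of_pos (inv_pos.2 hδ)]
    have := hsmall (k * y + (e - k)) ⟨by nlinarith [hy.1], by nlinarith [hy.2]⟩
    rw [inv_mul_le_iff₀ hδ]
    linarith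
  have hT' := Chebyshev.eval_iterate_derivative_le_of_forall_abs_le_one (n := N) (k := 0)
    (x := (u + u⁻¹) / 2) (by rw [hyw]; linarith) hqdeg hqb
  simp only [Function.iterate_zero, id_eq] at hT'
  rw [T_at u hu0 N, hqe] at hT'
  have e1 : k * ((u + u⁻¹) / 2) + (e - k) = ξ := by
    rw [hyw]
    linear_combination hkw
  rw [e1, inv_mul_le_iff₀ hδ] at hT'
  linarith

/-- Lower bound for `E n` of a steep ramp. -/
theorem E_rmp (M r u δ : ℝ) (N : ℕ) (hM : 0 < M) (hr : M * r = 1) (hδ : 0 < δ)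
    (hrd : r + δ < 1) (hd2 : δ < 1 / 2) (hu : 1 < u)
    (hy : (r + δ) * (2 * u) ≤ (u - 1) ^ 2 * (1 - (r + δ) / 2))
    (hT : δ * ((u ^ N + (u⁻¹) ^ N) / 2) ≤ 1 - δ)
    (n : ℕ) (hn : n ≤ N) : δ ≤ E n (rmp M) := by
  unfold E
  have : Nonempty {p : ℝ[X] // p.natDegree ≤ n} := ⟨⟨0, by simp⟩⟩
  exact le_ciInf (fun p => rmp_lower M r u δ N hM hr hδ hrd hd2 hu hy hT p.1 (p.2.trans hn))

/-! ### Degree at most one -/

theorem E_le_half (n : ℕ) (f : ℝ → ℝ) (hf : f ∈ K) : E n f ≤ 1 / 2 := by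
  unfold E
  refine ciInf_le_of_le ⟨0, ?_⟩ (⟨C (1 / 2), by simp⟩ : {p : ℝ[X] // p.natDegree ≤ n}) ?_
  · rintro _ ⟨p, rfl⟩
    exact hdist_nonneg _ _
  · apply ciSup_le
    rintro ⟨x, hx⟩
    have h1 := (hf.2.2 x hx).1
    have h2 := (hf.2.2 x hx).2
    have h3 : |f x - 1 / 2| ≤ 1 / 2 := by
      rw [abs_le]; constructor <;> linarith
    apply hdiff_le
    · exact ⟨x, hx, by simp, by simpa using h3⟩
    · exact ⟨x, hx, by simp, by simpa using h3⟩

theorem abs_lower_one (p : ℝ[X]) (hp : p.natDegree ≤ 1) :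
    1 / 2 ≤ hdist (fun x => |x|) (fun x => p.eval x) := by
  by_contra hcon
  push Not at hcon
  have hex := exists_of_hdist_lt (fun x => |x|) (fun x => p.eval x)
    continuous_abs.continuousOn p.continuous.continuousOn _ hcon
  obtain ⟨⟨a, ha, a1, a2⟩, -⟩ := hex 1 (by norm_num)
  obtain ⟨⟨b, hb, b1, b2⟩, -⟩ := hex (-1) (by norm_num)
  obtain ⟨⟨c, hc, c1, c2⟩, -⟩ := hex 0 (by norm_num)
  obtain ⟨s, t, hst⟩ : ∃ s t : ℝ, ∀ x, p.eval x = s * x + t := by
    rw [Polynomial.eq_X_add_C_of_natDegree_le_one hp]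
    exact ⟨p.coeff 1, p.coeff 0, fun x => by simp⟩
  simp only [hst, abs_one, abs_neg, abs_zero] at a2 b2 c2
  rw [abs_lt] at a1 a2 b1 b2 c1 c2
  rcases le_total 0 s with h | h
  · nlinarith [a1.1, a1.2, a2.1, a2.2, b1.1, b1.2, b2.1, b2.2, c1.1, c1.2, c2.1, c2.2]
  · nlinarith [a1.1, a1.2, a2.1, a2.2, b1.1, b1.2, b2.1, b2.2, c1.1, c1.2, c2.1, c2.2]

theorem E_abs_one (n : ℕ) (hn : n ≤ 1) : E n (fun x => |x|) = 1 / 2 := by
  apply le_antisymm
  · apply E_le_half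
    refine ⟨continuous_abs.continuousOn, ?_, ?_⟩
    · exact (convexOn_norm (convex_Icc (-1 : ℝ) 1))
    · intro x hx
      exact ⟨abs_nonneg x, abs_le.2 ⟨by linarith [hx.1], hx.2⟩⟩
  · unfold E
    have : Nonempty {p : ℝ[X] // p.natDegree ≤ n} := ⟨⟨0, by simp⟩⟩
    exact le_ciInf (fun p => abs_lower_one p.1 (p.2.trans hn))

end Pool.Agent.Y878.PO
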